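import Pool.Agent.R599.TT.Lab

/-!
# Strengthened parity is stronger than parity for trees without the recursive rule
-/

namespace Pool.Agent.Results.MP_b8bcd1_lc.DirectStrongDiffers

open Pool.Agent.R599.TT

/-- Strengthened parity of a pair of nodes on the branch `B`: every critical node of `B`,
together with its partner, is in the trace of the pair. -/
def StrongParity (B : List Node) (z z' : Node) : Prop :=
  ∀ c ∈ B, ∀ p, c.partner = some p → c.id ∈ pairTrace z z' ∧ p ∈ pairTrace z z'

/-- The formulas having a truth-tree with parity (without the recursive rule). -/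
def DA : Set Fm := {χ | HasTree ∅ Parity χ}

/-- The formulas having a truth-tree with strengthened parity (without the recursive
rule). -/
def DAs : Set Fm := {χ | HasTree ∅ StrongParity χ}

/-- Strengthened parity for labels. -/
def lfS : Finset ℕ → Label → Prop := fun C L => ∀ k ∈ C, ∀ b, (k, b) ∈ L

theorem match_strong : Match StrongParity lfS := by
  intro B C f z z' hC hz hz'
  rw [← lab_union]
  constructor
  · intro h k hk b
    obtain ⟨c, hc, h1, h2⟩ := hC.mem k hk b
    have h3 := (h c hc _ h2).1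
    rw [h1] at h3
    exact ⟨hk, h3⟩
  · intro h c hc p hp
    obtain ⟨k, hk, b, h1, h2⟩ := hC.crit c hc p hp
    rw [h1, h2]
    exact ⟨(h k hk b).2, (h k hk (!b)).2⟩

/-- The formula `a₁ → (c₁ → (¬a₂ → c₂))`. -/
abbrev H : Fm := .imp (.var 0) (.imp (.var 2) (.imp (.neg (.var 1)) (.var 3)))

/-- The formula `(a₁ ∨ a₂) → a₂`. -/
abbrev Ka : Fm := .imp (.or (.var 0) (.var 1)) (.var 1)

/-- The formula `(c₁ ∨ c₂) → c₂`. -/
abbrev Kc : Fm := .imp (.or (.var 2) (.var 3)) (.var 3)

/-- The formula separating the two notions. -/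
abbrev Phi : Fm := .or (.neg H) (.or Ka Kc)

theorem phi_mem : Phi ∈ DA := by
  show HasTree ∅ Parity Phi
  rw [hasTree_iff match_parity]
  refine .ndisj (.neg H) (.or Ka Kc) ∅ rfl ?_
  refine .ndisj Ka Kc ∅ (by simp) ?_
  refine .nneg H ∅ (by simp) ?_
  refine .counter (.or (.var 0) (.var 1)) (.var 1) ∅ 0 (by simp) (by simp) ?_
  refine .counter (.or (.var 2) (.var 3)) (.var 3) ∅ 1 (by simp) (by simp) ?_
  refine .disj (.var 0) (.var 1) (insert (0, true) ∅) (by simp) ?_ ?_
  · refine .disj (.var 2) (.var 3) (insert (1, true) ∅) (by simp) ?_ ?_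
    · refine .mp (.var 0) (.imp (.var 2) (.imp (.neg (.var 1)) (.var 3))) (insert (0, true) ∅) ∅
        (by simp) (by simp) ?_
      refine .mp (.var 2) (.imp (.neg (.var 1)) (.var 3)) (insert (1, true) ∅)
        ((insert (0, true) ∅) ∪ ∅) (by simp) (by simp) ?_
      refine .mp (.neg (.var 1)) (.var 3) (insert (0, false) ∅)
        (insert (1, true) ∅ ∪ ((insert (0, true) ∅) ∪ ∅)) (by simp) (by simp) ?_
      refine .leaf (.var 3) (insert (0, false) ∅ ∪ (insert (1, true) ∅ ∪
        ((insert (0, true) ∅) ∪ ∅))) (insert (1, false) ∅) (by simp) (by simp) ?_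
      intro k
      simp
      tauto
    · refine .leaf (.var 3) (insert (1, true) ∅) (insert (1, false) ∅) (by simp) (by simp) ?_
      intro k
      simp
  · refine .leaf (.var 1) (insert (0, true) ∅) (insert (0, false) ∅) (by simp) (by simp) ?_
    intro k
    simp

/-- The nodes an adversary allows. -/
inductive Alw (Ca Cc : Finset ℕ) (m : Bool) : Fm → Label → Prop
  | r0 : Alw Ca Cc m (.neg Phi) ∅
  | r1 : Alw Ca Cc m (.neg (.neg H)) ∅
  | r2 : Alw Ca Cc m (.neg (.or Ka Kc)) ∅
  | r3 : Alw Ca Cc m H ∅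
  | r4 : Alw Ca Cc m (.neg Ka) ∅
  | r5 : Alw Ca Cc m (.neg Kc) ∅
  | a0 (k : ℕ) (hk : k ∈ Ca) : Alw Ca Cc m (.or (.var 0) (.var 1)) {(k, true)}
  | a1 (k : ℕ) (hk : k ∈ Ca) : Alw Ca Cc m (.neg (.var 1)) {(k, false)}
  | c0 (k : ℕ) (hk : k ∈ Cc) : Alw Ca Cc m (.or (.var 2) (.var 3)) {(k, true)}
  | c1 (k : ℕ) (hk : k ∈ Cc) : Alw Ca Cc m (.neg (.var 3)) {(k, false)}
  | aa (k : ℕ) (hk : k ∈ Ca) (hm : m = true) : Alw Ca Cc m (.var 0) {(k, true)}
  | ah (k : ℕ) (hk : k ∈ Ca) (hm : m = true) :
      Alw Ca Cc m (.imp (.var 2) (.imp (.neg (.var 1)) (.var 3))) {(k, true)}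
  | cc (k : ℕ) (hk : k ∈ Cc) (hm : m = false) : Alw Ca Cc m (.var 2) {(k, true)}
  | ax (k : ℕ) (hk : k ∈ Ca) (h : Cc.Nonempty) : Alw Ca Cc m (.var 1) {(k, true)}
  | cx (k : ℕ) (hk : k ∈ Cc) (h : Ca.Nonempty) : Alw Ca Cc m (.var 3) {(k, true)}

theorem Alw.mono {Ca Cc Ca' Cc' : Finset ℕ} {m : Bool} {φ : Fm} {X : Label}
    (h : Alw Ca Cc m φ X) (ha : Ca ⊆ Ca') (hc : Cc ⊆ Cc') : Alw Ca' Cc' m φ X := by
  cases h with
  | r0 => exact .r0
  | r1 => exact .r1
  | r2 => exact .r2
  | r3 => exact .r3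
  | r4 => exact .r4
  | r5 => exact .r5
  | a0 k hk => exact .a0 k (ha hk)
  | a1 k hk => exact .a1 k (ha hk)
  | c0 k hk => exact .c0 k (hc hk)
  | c1 k hk => exact .c1 k (hc hk)
  | aa k hk hm => exact .aa k (ha hk) hm
  | ah k hk hm => exact .ah k (ha hk) hm
  | cc k hk hm => exact .cc k (hc hk) hm
  | ax k hk h => exact .ax k (ha hk) (h.mono hc)
  | cx k hk h => exact .cx k (hc hk) (h.mono ha)

theorem Alw.toTrue {Ca : Finset ℕ} {m : Bool} {φ : Fm} {X : Label}
    (h : Alw Ca ∅ m φ X) : Alw Ca ∅ true φ X := by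
  cases h with
  | r0 => exact .r0
  | r1 => exact .r1
  | r2 => exact .r2
  | r3 => exact .r3
  | r4 => exact .r4
  | r5 => exact .r5
  | a0 k hk => exact .a0 k hk
  | a1 k hk => exact .a1 k hk
  | c0 k hk => exact .c0 k hk
  | c1 k hk => exact .c1 k hk
  | aa k hk hm => exact .aa k hk rfl
  | ah k hk hm => exact .ah k hk rfl
  | cc k hk hm => exact absurd hk (by simp)
  | ax k hk h => exact absurd h (by simp)
  | cx k hk h => exact absurd hk (by simp)

theorem Alw.toFalse {Cc : Finset ℕ} {m : Bool} {φ : Fm} {X : Label}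
    (h : Alw ∅ Cc m φ X) : Alw ∅ Cc false φ X := by
  cases h with
  | r0 => exact .r0
  | r1 => exact .r1
  | r2 => exact .r2
  | r3 => exact .r3
  | r4 => exact .r4
  | r5 => exact .r5
  | a0 k hk => exact absurd hk (by simp)
  | a1 k hk => exact absurd hk (by simp)
  | c0 k hk => exact .c0 k hk
  | c1 k hk => exact .c1 k hk
  | aa k hk hm => exact absurd hk (by simp)
  | ah k hk hm => exact absurd hk (by simp)
  | cc k hk hm => exact .cc k hk rfl
  | ax k hk h => exact absurd hk (by simp)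
  | cx k hk h => exact absurd h (by simp)

theorem alw_insert {Ca Cc : Finset ℕ} {m : Bool} {Γ : Set (Fm × Label)} {φ : Fm} {X : Label}
    (h : Alw Ca Cc m φ X) (hΓ : ∀ t ∈ Γ, Alw Ca Cc m t.1 t.2) :
    ∀ t ∈ (insert (φ, X) Γ : Set (Fm × Label)), Alw Ca Cc m t.1 t.2 := by
  intro t ht
  rcases ht with rfl | ht
  · exact h
  · exact hΓ t ht

theorem adversary {C : Finset ℕ} {Γ : Set (Fm × Label)} (h : LC ∅ lfS C Γ) :
    ∀ (Ca Cc : Finset ℕ) (m : Bool), C = Ca ∪ Cc → Disjoint Ca Cc →
      (∀ t ∈ Γ, Alw Ca Cc m t.1 t.2) → False := by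
  induction h with
  | @leaf C Γ ζ X Y h h' hl =>
    intro Ca Cc m hC hd hΓ
    have h1 := hΓ _ h
    have h2 := hΓ _ h'
    simp only at h1 h2
    cases h2 with
    | r0 => cases h1
    | r1 => cases h1
    | r2 => cases h1
    | r4 => cases h1
    | r5 => cases h1
    | a1 k hk =>
      cases h1 with
      | ax k' hk' hne =>
        obtain ⟨j, hj⟩ := hne
        have := hl j (by rw [hC]; exact Finset.mem_union_right _ hj) true
        simp at this
        exact Finset.disjoint_left.1 hd hk' (this ▸ hj)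
    | c1 k hk =>
      cases h1 with
      | cx k' hk' hne =>
        obtain ⟨j, hj⟩ := hne
        have := hl j (by rw [hC]; exact Finset.mem_union_left _ hj) true
        simp at this
        exact Finset.disjoint_left.1 hd (this ▸ hj) hk'
  | @conj C Γ φ ψ X h _ ih =>
    intro Ca Cc m hC hd hΓ
    have h1 := hΓ _ h
    simp only at h1
    cases h1
  | @ndisj C Γ φ ψ X h _ ih =>
    intro Ca Cc m hC hd hΓ
    have h1 := hΓ _ h
    simp only at h1
    cases h1 with
    | r0 => exact ih Ca Cc m hC hd (alw_insert .r2 (alw_insert .r1 hΓ))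
    | r2 => exact ih Ca Cc m hC hd (alw_insert .r5 (alw_insert .r4 hΓ))
  | @nneg C Γ φ X h _ ih =>
    intro Ca Cc m hC hd hΓ
    have h1 := hΓ _ h
    simp only at h1
    cases h1 with
    | r1 => exact ih Ca Cc m hC hd (alw_insert .r3 hΓ)
  | @nconj C Γ φ ψ X h _ _ ih ih' =>
    intro Ca Cc m hC hd hΓ
    have h1 := hΓ _ h
    simp only at h1
    cases h1
  | @disj C Γ φ ψ X h _ _ ih ih' =>
    intro Ca Cc m hC hd hΓ
    have h1 := hΓ _ h
    simp only at h1
    cases h1 with
    | a0 k hk =>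
      rcases Finset.eq_empty_or_nonempty Cc with hc | hc
      · subst hc
        exact ih Ca ∅ true hC hd (alw_insert (.aa k hk rfl) (fun t ht => (hΓ t ht).toTrue))
      · exact ih' Ca Cc m hC hd (alw_insert (.ax k hk hc) hΓ)
    | c0 k hk =>
      rcases Finset.eq_empty_or_nonempty Ca with hc | hc
      · subst hc
        exact ih ∅ Cc false hC hd (alw_insert (.cc k hk rfl) (fun t ht => (hΓ t ht).toFalse))
      · exact ih' Ca Cc m hC hd (alw_insert (.cx k hk hc) hΓ)
  | @mp C Γ φ ψ X Y h h' _ ih =>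
    intro Ca Cc m hC hd hΓ
    have h1 := hΓ _ h
    have h2 := hΓ _ h'
    simp only at h1 h2
    cases h2 with
    | r3 =>
      cases h1 with
      | aa k hk hm =>
        refine ih Ca Cc m hC hd (alw_insert ?_ hΓ)
        rw [Set.union_empty]
        exact .ah k hk hm
    | ah k hk hm =>
      cases h1 with
      | cc k' hk' hm' => simp [hm] at hm'
  | @counter C Γ φ ψ X k h hk _ ih =>
    intro Ca Cc m hC hd hΓ
    have h1 := hΓ _ h
    simp only at h1
    rw [hC] at hk
    simp only [Finset.mem_union, not_or] at hk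
    have e1 : (insert (k, false) ∅ : Label) = {(k, false)} := by simp
    have e2 : (insert (k, true) ∅ : Label) = {(k, true)} := by simp
    cases h1 with
    | r4 =>
      refine ih (insert k Ca) Cc m ?_ ?_ ?_
      · rw [hC, Finset.insert_union]
      · rw [Finset.disjoint_insert_left]
        exact ⟨hk.2, hd⟩
      · rw [e1, e2]
        exact alw_insert (.a1 k (Finset.mem_insert_self _ _)) (alw_insert
          (.a0 k (Finset.mem_insert_self _ _))
          (fun t ht => (hΓ t ht).mono (Finset.subset_insert _ _) (subset_refl _)))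
    | r5 =>
      refine ih Ca (insert k Cc) m ?_ ?_ ?_
      · rw [hC, Finset.union_insert]
      · rw [Finset.disjoint_insert_right]
        exact ⟨hk.1, hd⟩
      · rw [e1, e2]
        exact alw_insert (.c1 k (Finset.mem_insert_self _ _)) (alw_insert
          (.c0 k (Finset.mem_insert_self _ _))
          (fun t ht => (hΓ t ht).mono (subset_refl _) (Finset.subset_insert _ _)))
  | recur φ ψ X h hS _ ih => exact absurd hS (by simp)

theorem phi_not_mem : Phi ∉ DAs := by
  intro h
  have h' : HasTree ∅ StrongParity Phi := h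
  rw [hasTree_iff match_strong] at h'
  refine adversary h' ∅ ∅ true (by simp) (by simp) ?_
  rintro t rfl
  exact .r0

/-- Some formula has a truth-tree with parity but no truth-tree with strengthened parity
(both without the recursive rule). -/
theorem result : ∃ χ : Fm, χ ∈ DA ∧ χ ∉ DAs :=
  ⟨Phi, phi_mem, phi_not_mem⟩

end Pool.Agent.Results.MP_b8bcd1_lc.DirectStrongDiffers
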